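import Pool.Agent.BGE.BigFin
import Pool.Agent.BGE.StaticC

/-!
MP_ab3734_pr. Dynamical exponential last passage percolation: almost surely, at no time there is a
non-trivial bigeodesic.
-/

namespace Pool.Agent.Results.MP_ab3734_pr.NoBigeodesics

open MeasureTheory ProbabilityTheory

/-- Index set of the randomness. For a site `v` and a natural number `n`, the variable with index
`(v, n, false)` is the `n`-th waiting time of the clock at `v` and the variable with index
`(v, n, true)` is the weight of `v` after `n` rings of this clock. -/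
abbrev Noise := (ℤ × ℤ) × ℕ × Bool

/-- The number of rings of the clock at `v` in the time interval `[0, t]`; the clock rings at the
times `z (v, 0, false)`, `z (v, 0, false) + z (v, 1, false)`, and so on. -/
noncomputable def rings (z : Noise → ℝ) (v : ℤ × ℤ) (t : ℝ) : ℕ :=
  sInf {n : ℕ | t < ∑ i ∈ Finset.range (n + 1), z (v, i, false)}

/-- The configuration of the weights at the time `t`. -/
noncomputable def weights (z : Noise → ℝ) (t : ℝ) : ℤ × ℤ → ℝ := fun v => z (v, rings z v t, true)

/-- Bi-infinite directed nearest-neighbour paths. -/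
def IsPath (γ : ℤ → ℤ × ℤ) : Prop := ∀ k, γ (k + 1) = γ k + (1, 0) ∨ γ (k + 1) = γ k + (0, 1)

/-- The weight of the segment of `γ` between the indices `a` and `b`. -/
noncomputable def pathWeight (ω : ℤ × ℤ → ℝ) (γ : ℤ → ℤ × ℤ) (a b : ℤ) : ℝ :=
  ∑ k ∈ Finset.Icc a b, ω (γ k)

/-- `γ` is a bigeodesic: each finite segment of `γ` has the maximal weight among all the finite
directed paths with the same end points (every finite directed path is a segment of some
bi-infinite directed path `γ'`). -/
def IsBigeodesic (ω : ℤ × ℤ → ℝ) (γ : ℤ → ℤ × ℤ) : Prop :=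
  IsPath γ ∧ ∀ a b : ℤ, a ≤ b → ∀ γ' : ℤ → ℤ × ℤ, IsPath γ' → ∀ a' b' : ℤ, a' ≤ b' →
    γ' a' = γ a → γ' b' = γ b → pathWeight ω γ' a' b' ≤ pathWeight ω γ a b

/-- The path is a horizontal or vertical line. -/
def IsTrivial (γ : ℤ → ℤ × ℤ) : Prop :=
  (∀ k, γ (k + 1) = γ k + (1, 0)) ∨ (∀ k, γ (k + 1) = γ k + (0, 1))

open BGE in
theorem lev_path {γ : ℤ → ℤ × ℤ} (h : IsPath γ) (k : ℤ) : lev (γ k) = lev (γ 0) + k := by
  have step : ∀ k, lev (γ (k + 1)) = lev (γ k) + 1 := by
    intro k
    rcases h k with h | h <;> rw [h] <;> simp only [lev, Prod.fst_add, Prod.snd_add] <;> ring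
  induction k using Int.induction_on with
  | zero => simp
  | succ n ih => rw [step, ih]; ring
  | pred n ih =>
    have := step (-(n : ℤ) - 1)
    rw [sub_add_cancel, ih] at this
    linarith

open BGE in
/-- the first coordinate as a function of the level -/
def prof (γ : ℤ → ℤ × ℤ) (l : ℤ) : ℤ := (γ (l - lev (γ 0))).1

open BGE in
theorem pt_prof {γ : ℤ → ℤ × ℤ} (h : IsPath γ) (l : ℤ) : pt (prof γ) l = γ (l - lev (γ 0)) := by
  have h1 := lev_path h (l - lev (γ 0))
  simp only [pt, prof]
  ext
  · rfl
  · simp only [lev] at h1 ⊢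
    linarith

open BGE in
theorem wt_prof {γ : ℤ → ℤ × ℤ} (h : IsPath γ) (ω : ℤ × ℤ → ℝ) (a b : ℤ) :
    wt ω (prof γ) a b = pathWeight ω γ (a - lev (γ 0)) (b - lev (γ 0)) := by
  unfold wt pathWeight
  apply Finset.sum_nbij' (fun l => l - lev (γ 0)) (fun k => k + lev (γ 0))
  · intro l hl
    simp only [Finset.mem_Icc] at hl ⊢
    constructor <;> linarith [hl.1, hl.2]
  · intro l hl
    simp only [Finset.mem_Icc] at hl ⊢
    constructor <;> linarith [hl.1, hl.2]
  · intro l _; ring
  · intro l _; ring
  · intro l _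
    rw [pt_prof h]

open BGE in
theorem prof_step {γ : ℤ → ℤ × ℤ} (h : IsPath γ) (l : ℤ) :
    prof γ (l + 1) = prof γ l ∨ prof γ (l + 1) = prof γ l + 1 := by
  have e : l + 1 - lev (γ 0) = (l - lev (γ 0)) + 1 := by ring
  unfold prof
  rcases h (l - lev (γ 0)) with h | h
  · right; rw [e, h]; simp
  · left; rw [e, h]; simp

/-- a path given on an interval of levels extends to a bi-infinite path -/
theorem extend {x : ℤ → ℤ} {a b : ℤ} (hab : a ≤ b) (hx : BGE.UR x a b) :
    ∃ γ : ℤ → ℤ × ℤ, IsPath γ ∧ ∀ l, a ≤ l → l ≤ b → γ l = BGE.pt x l := by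
  refine ⟨fun l => BGE.pt (fun l => x (max a (min l b))) l, ?_, ?_⟩
  · intro l
    simp only [BGE.pt]
    have hc : x (max a (min (l + 1) b)) = x (max a (min l b)) ∨
        x (max a (min (l + 1) b)) = x (max a (min l b)) + 1 := by
      by_cases h1 : l < a
      · left
        congr 1
        rw [max_eq_left (by rw [min_le_iff]; left; linarith),
          max_eq_left (by rw [min_le_iff]; left; linarith)]
      · by_cases h2 : l < b
        · push Not at h1
          rw [min_eq_left (by linarith), min_eq_left (by linarith), max_eq_right (by linarith),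
            max_eq_right h1]
          exact hx l h1 h2
        · left
          push Not at h1 h2
          rw [min_eq_right (by linarith), min_eq_right h2]
    rcases hc with hc | hc
    · right
      ext
      · simp [hc]
      · simp [hc]; ring
    · left
      ext
      · simp [hc]
      · simp [hc]
  · intro l h1 h2
    simp only [BGE.pt]
    rw [min_eq_left h2, max_eq_right h1]

open BGE in
theorem big_of {ω : ℤ × ℤ → ℝ} {γ : ℤ → ℤ × ℤ} (h : IsBigeodesic ω γ) : BiG ω (prof γ) := by
  refine ⟨prof_step h.1, ?_⟩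
  intro a b hab
  have hur : UR (prof γ) a b := fun l _ _ => prof_step h.1 l
  apply le_antisymm (wt_le_T hur hab)
  have hle : pt (prof γ) a ≤ pt (prof γ) b := pt_le_pt hur le_rfl hab le_rfl
  obtain ⟨x, hx, hx1, hx2, hx3⟩ := exists_path ω hle
  have la : lev (pt (prof γ) a) = a := by simp [lev, pt]
  have lb : lev (pt (prof γ) b) = b := by simp [lev, pt]
  rw [la, lb] at hx hx3
  rw [la] at hx1
  rw [lb] at hx2
  obtain ⟨γ', hγ', hγ2⟩ := extend hab hx
  have key := h.2 (a - lev (γ 0)) (b - lev (γ 0)) (by linarith) γ' hγ' a b hab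
    (by rw [hγ2 a le_rfl hab, hx1, pt_prof h.1]) (by rw [hγ2 b hab le_rfl, hx2, pt_prof h.1])
  rw [← wt_prof h.1] at key
  refine le_trans (le_of_eq ?_) key
  rw [← hx3]
  unfold wt pathWeight
  apply Finset.sum_congr rfl
  intro l hl
  simp only [Finset.mem_Icc] at hl
  rw [hγ2 l hl.1 hl.2]

/-- **Theorem.** In dynamical last passage percolation with exponential weights and independent
rate-one Poisson clocks on `ℤ²`, almost surely, for all times `t ≥ 0` simultaneously, every
bigeodesic of the configuration at the time `t` is a horizontal or vertical line. In particular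
there are no exceptional times at which the origin lies on a non-trivial bigeodesic. -/
theorem result {Ω : Type*} [MeasurableSpace Ω] (P : Measure Ω) [IsProbabilityMeasure P]
    (Z : Noise → Ω → ℝ) (hZ : ∀ d, Measurable (Z d)) (hind : iIndepFun Z P)
    (hlaw : ∀ d, P.map (Z d) = expMeasure 1) :
    ∀ᵐ o ∂P, ∀ t : ℝ, 0 ≤ t → ∀ γ : ℤ → ℤ × ℤ,
      IsBigeodesic (weights (fun d => Z d o) t) γ → IsTrivial γ := by
  have hmap : P.map (fun o d => Z d o) = BGE.PI Noise := by
    have := (iIndepFun_iff_map_fun_eq_infinitePi_map hZ).1 hind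
    rw [this]
    unfold BGE.PI BGE.E1
    congr 1
    ext1 d
    exact hlaw d
  have hmain := BGE.no_big BGE.static_all
  rw [show (BGE.PI BGE.DI) = P.map (fun o d => Z d o) from hmap.symm] at hmain
  have h1 := ae_of_ae_map (measurable_pi_lambda _ hZ).aemeasurable hmain
  filter_upwards [h1] with o ho t ht γ hγ
  have hb : BGE.BiG (BGE.ct (fun d => Z d o) t) (prof γ) := big_of hγ
  have hs : ∀ k, prof γ (k + BGE.lev (γ 0)) = (γ k).1 := by
    intro k; simp [prof]
  rcases ho t ht (prof γ) hb with h | h
  · right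
    intro k
    have e := h (k + BGE.lev (γ 0))
    rw [show k + BGE.lev (γ 0) + 1 = (k + 1) + BGE.lev (γ 0) by ring, hs, hs] at e
    rcases hγ.1 k with h' | h'
    · rw [h'] at e; simp at e
    · exact h'
  · left
    intro k
    have e := h (k + BGE.lev (γ 0))
    rw [show k + BGE.lev (γ 0) + 1 = (k + 1) + BGE.lev (γ 0) by ring, hs, hs] at e
    rcases hγ.1 k with h' | h'
    · exact h'
    · rw [h'] at e; simp at e

end Pool.Agent.Results.MP_ab3734_pr.NoBigeodesics
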